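import Pool.Agent.H63.NS.P4Def

/-!
Weights of families of forms (PET induction): the pair family, after a translation by a suitable
form, has smaller weight, and small facts about the weight.
-/

set_option autoImplicit false

open Finset

namespace Pool.Agent.H63.NS.P4

open Pool.Agent.H63.NS

lemma card_shift_lt (S : Finset ℤ) (h0 : (0 : ℤ) ∉ S) {a : ℤ} (ha : a ∈ S) :
    (((S.image (fun x => x - a))).erase 0).card < (S.erase 0).card := by
  have h1 : (0 : ℤ) ∈ S.image (fun x => x - a) := mem_image.mpr ⟨a, ha, sub_self a⟩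
  have h2 : (S.image (fun x => x - a)).card = S.card :=
    card_image_of_injective _ (fun x y h => by simpa using h)
  rw [card_erase_of_mem h1, h2, erase_eq_of_notMem h0]
  have : 0 < S.card := card_pos.mpr ⟨a, ha⟩
  omega

lemma wt_lt_of_N2 {ι κ : Type} [Fintype ι] [Fintype κ] {L : ι → (ℕ →₀ ℤ)} {L' : κ → (ℕ →₀ ℤ)}
    (h : N2 L' < N2 L) : wt L' < wt L := by
  unfold wt
  rw [Prod.Lex.toLex_lt_toLex]
  exact Or.inl h

lemma wt_lt_of_N1 {ι κ : Type} [Fintype ι] [Fintype κ] {L : ι → (ℕ →₀ ℤ)} {L' : κ → (ℕ →₀ ℤ)}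
    (h2 : N2 L' = N2 L) (h : N1 L' < N1 L) : wt L' < wt L := by
  unfold wt
  rw [Prod.Lex.toLex_lt_toLex]
  exact Or.inr ⟨h2, h⟩

/-- the pair family, after a translation by a suitable form `M`, has smaller weight -/
theorem wt_pair {ι : Type} [Fintype ι] [Nonempty ι] (L P Q : ι → (ℕ →₀ ℤ))
    (hO : ∀ j, L j 0 ≠ 0 ∨ L j 1 ≠ 0) (hP0 : ∀ j, P j 0 = 0) (hP1 : ∀ j, P j 1 = 0)
    (hQ0 : ∀ j, Q j 0 = 0) (hQ1 : ∀ j, L j 0 = 0 → Q j 1 = 0) :
    ∃ M : ℕ →₀ ℤ, (∀ d, (∀ j, L j d + P j d = 0) → M d = 0) ∧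
      wt (fun j : ι ⊕ ι => Sum.elim (fun j => L j + P j) (fun j => L j + Q j) j - M) < wt L := by
  classical
  by_cases hc : ∃ j0, L j0 0 = 0
  · obtain ⟨j0, hj0⟩ := hc
    refine ⟨L j0 + P j0, fun d hd => by simpa using hd j0, ?_⟩
    have e0 : ∀ j : ι ⊕ ι, (Sum.elim (fun j => L j + P j) (fun j => L j + Q j) j - (L j0 + P j0)) 0 =
        L (Sum.elim id id j) 0 := by
      rintro (j | j)
      · simp [hP0, hj0]
      · simp [hP0, hQ0, hj0]
    have e1 : ∀ j : ι ⊕ ι, L (Sum.elim id id j) 0 = 0 →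
        (Sum.elim (fun j => L j + P j) (fun j => L j + Q j) j - (L j0 + P j0)) 1 =
        L (Sum.elim id id j) 1 - L j0 1 := by
      rintro (j | j) hj
      · simp [hP1]
      · simp only [Sum.elim_inr, id_eq] at hj
        simp [hP1, hQ1 j hj]
    apply wt_lt_of_N1
    · unfold N2
      congr 2
      ext x
      simp only [mem_image, mem_univ, true_and]
      constructor
      · rintro ⟨j, hj⟩
        exact ⟨Sum.elim id id j, by rw [← hj, e0]⟩
      · rintro ⟨j, hj⟩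
        exact ⟨Sum.inl j, by rw [e0]; exact hj⟩
    · set S : Finset ℤ := (univ.filter (fun j => L j 0 = 0)).image (fun j => L j 1) with hS
      have hS0 : (0 : ℤ) ∉ S := by
        rw [hS, mem_image]
        rintro ⟨j, hj, hj1⟩
        rw [mem_filter] at hj
        rcases hO j with h | h
        · exact h hj.2
        · exact h hj1
      have haS : L j0 1 ∈ S := mem_image.mpr ⟨j0, mem_filter.mpr ⟨mem_univ _, hj0⟩, rfl⟩
      have hk := card_shift_lt S hS0 haS
      unfold N1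
      have hEq : (univ.filter (fun j : ι ⊕ ι =>
          (Sum.elim (fun j => L j + P j) (fun j => L j + Q j) j - (L j0 + P j0)) 0 = 0)).image
          (fun j => (Sum.elim (fun j => L j + P j) (fun j => L j + Q j) j - (L j0 + P j0)) 1) =
          S.image (fun x => x - L j0 1) := by
        ext x
        simp only [mem_image, mem_filter, mem_univ, true_and, hS]
        constructor
        · rintro ⟨j, hj, hx⟩
          rw [e0] at hj
          exact ⟨L (Sum.elim id id j) 1, ⟨Sum.elim id id j, hj, rfl⟩, by rw [← hx, e1 j hj]⟩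
        · rintro ⟨y, ⟨j, hj, rfl⟩, hx⟩
          refine ⟨Sum.inl j, by rw [e0]; exact hj, ?_⟩
          rw [e1 (Sum.inl j) hj]
          exact hx
      rw [hEq]
      exact hk
  · push Not at hc
    obtain ⟨j0⟩ := ‹Nonempty ι›
    refine ⟨L j0 + P j0, fun d hd => by simpa using hd j0, ?_⟩
    have e0 : ∀ j : ι ⊕ ι, (Sum.elim (fun j => L j + P j) (fun j => L j + Q j) j - (L j0 + P j0)) 0 =
        L (Sum.elim id id j) 0 - L j0 0 := by
      rintro (j | j)
      · simp [hP0]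
      · simp [hP0, hQ0]
    apply wt_lt_of_N2
    set S : Finset ℤ := univ.image (fun j => L j 0) with hS
    have hS0 : (0 : ℤ) ∉ S := by
      rw [hS, mem_image]
      rintro ⟨j, -, hj⟩
      exact hc j hj
    have haS : L j0 0 ∈ S := mem_image.mpr ⟨j0, mem_univ _, rfl⟩
    have hk := card_shift_lt S hS0 haS
    unfold N2
    have hEq : univ.image (fun j : ι ⊕ ι =>
        (Sum.elim (fun j => L j + P j) (fun j => L j + Q j) j - (L j0 + P j0)) 0) =
        S.image (fun x => x - L j0 0) := by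
      ext x
      simp only [mem_image, mem_univ, true_and, hS]
      constructor
      · rintro ⟨j, hx⟩
        exact ⟨L (Sum.elim id id j) 0, ⟨Sum.elim id id j, rfl⟩, by rw [← hx, e0 j]⟩
      · rintro ⟨y, ⟨j, rfl⟩, hx⟩
        refine ⟨Sum.inl j, ?_⟩
        rw [e0 (Sum.inl j)]
        exact hx
    rw [hEq]
    exact hk

theorem wt_sub {ι : Type} [Fintype ι] (L : ι → (ℕ →₀ ℤ)) [Fintype {j : ι // L j 0 ≠ 0 ∨ L j 1 ≠ 0}] :
    wt (fun j : {j : ι // L j 0 ≠ 0 ∨ L j 1 ≠ 0} => L j.1) = wt L := by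
  classical
  have h2 : N2 (fun j : {j : ι // L j 0 ≠ 0 ∨ L j 1 ≠ 0} => L j.1) = N2 L := by
    unfold N2
    congr 1
    ext x
    simp only [mem_erase, mem_image, mem_univ, true_and]
    constructor
    · rintro ⟨hx, j, hj⟩
      exact ⟨hx, j.1, hj⟩
    · rintro ⟨hx, j, hj⟩
      exact ⟨hx, ⟨j, Or.inl (by rw [hj]; exact hx)⟩, hj⟩
  have h1 : N1 (fun j : {j : ι // L j 0 ≠ 0 ∨ L j 1 ≠ 0} => L j.1) = N1 L := by
    unfold N1
    congr 1
    ext x
    simp only [mem_erase, mem_image, mem_filter, mem_univ, true_and]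
    constructor
    · rintro ⟨hx, j, hj0, hj⟩
      exact ⟨hx, j.1, hj0, hj⟩
    · rintro ⟨hx, j, hj0, hj⟩
      exact ⟨hx, ⟨j, Or.inr (by rw [hj]; exact hx)⟩, hj0, hj⟩
  unfold wt
  rw [h1, h2]

theorem N2_eq_zero {ι : Type} [Fintype ι] (L : ι → (ℕ →₀ ℤ)) : N2 L = 0 ↔ ∀ j, L j 0 = 0 := by
  classical
  unfold N2
  rw [card_eq_zero]
  constructor
  · intro h j
    by_contra hj
    have : L j 0 ∈ (univ.image (fun j => L j 0)).erase 0 :=
      mem_erase.mpr ⟨hj, mem_image.mpr ⟨j, mem_univ _, rfl⟩⟩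
    rw [h] at this
    exact absurd this (notMem_empty _)
  · intro h
    rw [eq_empty_iff_forall_notMem]
    intro x hx
    rw [mem_erase, mem_image] at hx
    obtain ⟨hx, j, -, hj⟩ := hx
    exact hx (by rw [← hj, h j])

/-- `L'` has no coordinate `0` -/
theorem wt_lt0 {ι : Type} [Fintype ι] (L L' : ι → (ℕ →₀ ℤ)) (h : ∀ j, L' j 0 = 0)
    (hL : ∃ j, L j 0 ≠ 0) : wt L' < wt L := by
  apply wt_lt_of_N2
  rw [(N2_eq_zero L').mpr h]
  refine Nat.pos_of_ne_zero (fun h0 => ?_)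
  obtain ⟨j, hj⟩ := hL
  exact hj ((N2_eq_zero L).mp h0 j)

/-- `L'` has no coordinates `0`, `1` -/
theorem wt_lt1 {ι : Type} [Fintype ι] (L L' : ι → (ℕ →₀ ℤ)) (h : ∀ j, L' j 0 = 0) (h' : ∀ j, L' j 1 = 0)
    (hL : ∃ j, L j 0 ≠ 0 ∨ L j 1 ≠ 0) : wt L' < wt L := by
  classical
  by_cases hc : ∃ j, L j 0 ≠ 0
  · exact wt_lt0 L L' h hc
  · push Not at hc
    apply wt_lt_of_N1
    · rw [(N2_eq_zero L').mpr h, (N2_eq_zero L).mpr hc]
    · have e1 : N1 L' = 0 := by
        unfold N1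
        rw [card_eq_zero, eq_empty_iff_forall_notMem]
        intro x hx
        rw [mem_erase, mem_image] at hx
        obtain ⟨hx, j, -, hj⟩ := hx
        exact hx (by rw [← hj, h' j])
      rw [e1]
      obtain ⟨j, hj⟩ := hL
      have hj1 : L j 1 ≠ 0 := hj.resolve_left (fun h => h (hc j))
      unfold N1
      exact card_pos.mpr ⟨L j 1, mem_erase.mpr ⟨hj1, mem_image.mpr
        ⟨j, mem_filter.mpr ⟨mem_univ _, hc j⟩, rfl⟩⟩⟩

end Pool.Agent.H63.NS.P4
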